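import Mathlib

/-!
# Definitions: open rectangle-of-influence graphs, RVGs and CRVGs
-/

namespace Pool.Agent.Lib.MP_78e958_co

open Set

/-- The data of a closed axis-parallel rectangle `[l, r] × [b, t]` of positive width and
positive height in the plane. -/
structure Rect where
  l : ℝ
  r : ℝ
  b : ℝ
  t : ℝ
  hlr : l < r
  hbt : b < t

/-- The set of points of the rectangle. -/
def Rect.pts (A : Rect) : Set (ℝ × ℝ) := Icc A.l A.r ×ˢ Icc A.b A.t

/-- The corner of `A` on the right (`c.1 = true`) or left (`c.1 = false`) and on the top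
(`c.2 = true`) or bottom (`c.2 = false`). -/
def Rect.corner (A : Rect) (c : Bool × Bool) : ℝ × ℝ :=
  (if c.1 then A.r else A.l, if c.2 then A.t else A.b)

/-- `Q` is a band between `A` and `B`: one side of `Q` lies in `A` and the opposite side of `Q`
lies in `B`. -/
def IsBand (Q A B : Rect) : Prop :=
  ({Q.l} ×ˢ Icc Q.b Q.t ⊆ A.pts ∧ {Q.r} ×ˢ Icc Q.b Q.t ⊆ B.pts) ∨
  ({Q.r} ×ˢ Icc Q.b Q.t ⊆ A.pts ∧ {Q.l} ×ˢ Icc Q.b Q.t ⊆ B.pts) ∨
  (Icc Q.l Q.r ×ˢ {Q.b} ⊆ A.pts ∧ Icc Q.l Q.r ×ˢ {Q.t} ⊆ B.pts) ∨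
  (Icc Q.l Q.r ×ˢ {Q.t} ⊆ A.pts ∧ Icc Q.l Q.r ×ˢ {Q.b} ⊆ B.pts)

variable {V : Type}

/-- The rectangles of the family are pairwise disjoint. -/
def PairwiseDisjointFamily (R : V → Rect) : Prop :=
  ∀ i j, i ≠ j → Disjoint (R i).pts (R j).pts

/-- The rectangles `R i` and `R j` see each other: some horizontal or vertical band between them
meets no other member of the family. -/
def BandSees (R : V → Rect) (i j : V) : Prop :=
  ∃ Q : Rect, IsBand Q (R i) (R j) ∧ ∀ k, k ≠ i → k ≠ j → Disjoint Q.pts (R k).pts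

/-- `G` is a rectangle visibility graph. -/
def IsRVG (G : SimpleGraph V) : Prop :=
  ∃ R : V → Rect, PairwiseDisjointFamily R ∧
    ∀ i j, i ≠ j → (G.Adj i j ↔ BandSees R i j)

/-- `G` is an open rectangle-of-influence graph. Here `uIcc (P i) (P j)` is the axis-parallel
rectangle with opposite corners `P i` and `P j`. -/
def IsOpenRIG (G : SimpleGraph V) : Prop :=
  ∃ P : V → ℝ × ℝ, Function.Injective P ∧
    ∀ i j, i ≠ j → (G.Adj i j ↔ ∀ k, P k ∉ interior (uIcc (P i) (P j)))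

/-- `R i` (with its eye at the corner `e i`) sees `R j`. -/
def CornerSees (R : V → Rect) (e : V → Bool × Bool) (i j : V) : Prop :=
  ∃ (Q : Rect) (c : Bool × Bool),
    Q.corner c = (R i).corner (e i) ∧
    Q.corner (!c.1, !c.2) ∈ frontier (R j).pts ∧
    Q.pts ∩ (R i).pts = {(R i).corner (e i)} ∧
    Q.pts ∩ (R j).pts ⊆ frontier (R j).pts ∧
    ∀ k, k ≠ i → k ≠ j → Disjoint Q.pts (R k).pts

/-- `G` is a corner rectangle visibility graph. -/
def IsCRVG (G : SimpleGraph V) : Prop :=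
  ∃ (R : V → Rect) (e : V → Bool × Bool), PairwiseDisjointFamily R ∧
    ∀ i j, i ≠ j → (G.Adj i j ↔ CornerSees R e i j ∨ CornerSees R e j i)

end Pool.Agent.Lib.MP_78e958_co
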