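import Mathlib
import Pool.Agent.Lib.MP_78e958_co.Defs

/-!
# The join of two paths with eleven vertices is an open RIG and a CRVG but not an RVG
-/

namespace Pool.Agent.Lib.MP_78e958_co

open Set

variable {V : Type}

/-! ### Part 1: RVGs have at most `6 n` edges -/

section Bound

variable [Fintype V] [DecidableEq V]

/-- Abstract interval data: `[xl i, xr i]` is the x-extent, `[yb i, yt i]` the y-extent. -/
structure Boxes (V : Type) where
  xl : V → ℝ
  xr : V → ℝ
  yb : V → ℝ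
  yt : V → ℝ
  hx : ∀ i, xl i < xr i
  hy : ∀ i, yb i < yt i
  /-- boxes overlapping in x are separated in y -/
  sep : ∀ i j, i ≠ j → xl i ≤ xr j → xl j ≤ xr i → yt i < yb j ∨ yt j < yb i

/-- `i` is active just to the right of `x`. -/
def Act (S : Boxes V) (x : ℝ) (i : V) : Prop := S.xl i ≤ x ∧ x < S.xr i

/-- `i` and `j` are consecutive (with `i` below `j`) just to the right of `x`. -/
def Consec (S : Boxes V) (x : ℝ) (i j : V) : Prop :=
  Act S x i ∧ Act S x j ∧ S.yt i < S.yb j ∧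
    ∀ k, Act S x k → ¬ (S.yt i < S.yb k ∧ S.yt k < S.yb j)

/-- vertical visibility, `i` below `j`. -/
def VSee (S : Boxes V) (i j : V) : Prop :=
  ∃ x, Consec S x i j

omit [Fintype V] in
lemma consec_snd_unique (S : Boxes V) {x : ℝ} {i j j' : V}
    (h : Consec S x i j) (h' : Consec S x i j') : j = j' := by
  by_contra hne
  obtain ⟨hi, hj, hij, hk⟩ := h
  obtain ⟨-, hj', hij', hk'⟩ := h'
  rcases S.sep j j' hne (by linarith [hj.1, hj'.2]) (by linarith [hj'.1, hj.2]) with h1 | h1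
  · exact hk' j hj ⟨hij, h1⟩
  · exact hk j' hj' ⟨hij', h1⟩

omit [Fintype V] in
lemma consec_fst_unique (S : Boxes V) {x : ℝ} {i i' j : V}
    (h : Consec S x i j) (h' : Consec S x i' j) : i = i' := by
  by_contra hne
  obtain ⟨hi, hj, hij, hk⟩ := h
  obtain ⟨hi', -, hij', hk'⟩ := h'
  rcases S.sep i i' hne (by linarith [hi.1, hi'.2]) (by linarith [hi'.1, hi.2]) with h1 | h1
  · exact hk i' hi' ⟨h1, hij'⟩
  · exact hk' i hi ⟨h1, hij⟩

omit [Fintype V] in
lemma consec_mid_unique (S : Boxes V) {x : ℝ} {i i' j j' c : V}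
    (h : Consec S x i j) (h' : Consec S x i' j')
    (hc : S.yt i < S.yb c ∧ S.yt c < S.yb j) (hc' : S.yt i' < S.yb c ∧ S.yt c < S.yb j') :
    i = i' ∧ j = j' := by
  have hyc := S.hy c
  have hii : i = i' := by
    by_contra hne
    obtain ⟨hi, hj, hij, hk⟩ := h
    obtain ⟨hi', hj', hij', hk'⟩ := h'
    rcases S.sep i i' hne (by linarith [hi.1, hi'.2]) (by linarith [hi'.1, hi.2]) with h1 | h1
    · exact hk i' hi' ⟨h1, by linarith [hc.2, hc'.1]⟩
    · exact hk' i hi ⟨h1, by linarith [hc.1, hc'.2]⟩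
  subst hii
  exact ⟨rfl, consec_snd_unique S h h'⟩

omit [DecidableEq V] in
/-- Every visible pair is consecutive just to the right of one of three kinds of event. -/
lemma vsee_event (S : Boxes V) {i j : V} (h : VSee S i j) :
    Consec S (S.xl i) i j ∨ Consec S (S.xl j) i j ∨
      ∃ c, (S.yt i < S.yb c ∧ S.yt c < S.yb j) ∧ Consec S (S.xr c) i j := by
  classical
  obtain ⟨x, ⟨hi, hj, hij, hk⟩⟩ := h
  -- the finite set of candidate positions
  let F : Finset ℝ := insert (S.xl i) (insert (S.xl j)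
    ((Finset.univ.filter (fun c => (S.yt i < S.yb c ∧ S.yt c < S.yb j) ∧ S.xr c ≤ x)).image S.xr))
  have hF : F.Nonempty := ⟨S.xl i, by simp [F]⟩
  set X := F.max' hF with hX
  have hXmem : X ∈ F := F.max'_mem hF
  have hle : ∀ y ∈ F, y ≤ X := fun y hy => F.le_max' y hy
  have hXx : X ≤ x := by
    apply Finset.max'_le
    intro y hy
    simp only [F, Finset.mem_insert, Finset.mem_image, Finset.mem_filter, Finset.mem_univ,
      true_and] at hy
    rcases hy with rfl | rfl | ⟨c, hc, rfl⟩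
    · exact hi.1
    · exact hj.1
    · exact hc.2
  have hiX : S.xl i ≤ X := hle _ (by simp [F])
  have hjX : S.xl j ≤ X := hle _ (by simp [F])
  have hcons : Consec S X i j := by
    refine ⟨⟨hiX, lt_of_le_of_lt hXx hi.2⟩, ⟨hjX, lt_of_le_of_lt hXx hj.2⟩, hij, ?_⟩
    intro k hkact hkb
    by_cases hkx : S.xr k ≤ x
    · have : S.xr k ≤ X := hle _ (by
        simp only [F, Finset.mem_insert, Finset.mem_image, Finset.mem_filter, Finset.mem_univ,
          true_and]
        exact Or.inr (Or.inr ⟨k, ⟨hkb, hkx⟩, rfl⟩))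
      linarith [hkact.2]
    · exact hk k ⟨le_trans hkact.1 hXx, not_le.mp hkx⟩ hkb
  simp only [F, Finset.mem_insert, Finset.mem_image, Finset.mem_filter, Finset.mem_univ,
    true_and] at hXmem
  rcases hXmem with h1 | h1 | ⟨c, hc, h1⟩
  · left; rw [h1] at hcons; exact hcons
  · right; left; rw [h1] at hcons; exact hcons
  · right; right; exact ⟨c, hc.1, by rw [h1]; exact hcons⟩

/-- There are at most `3 n` vertically visible pairs. -/
lemma card_vsee_le (S : Boxes V) (P : Finset (V × V)) (hP : ∀ p ∈ P, VSee S p.1 p.2) :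
    P.card ≤ 3 * Fintype.card V := by
  classical
  let P1 := P.filter (fun p => Consec S (S.xl p.1) p.1 p.2)
  let P2 := P.filter (fun p => Consec S (S.xl p.2) p.1 p.2)
  let P3 := P.filter (fun p => ∃ c, (S.yt p.1 < S.yb c ∧ S.yt c < S.yb p.2) ∧
    Consec S (S.xr c) p.1 p.2)
  have hcover : P ⊆ P1 ∪ (P2 ∪ P3) := by
    intro p hp
    simp only [P1, P2, P3, Finset.mem_union, Finset.mem_filter]
    rcases vsee_event S (hP p hp) with h | h | h
    · exact Or.inl ⟨hp, h⟩
    · exact Or.inr (Or.inl ⟨hp, h⟩)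
    · exact Or.inr (Or.inr ⟨hp, h⟩)
  have h1 : P1.card ≤ Fintype.card V := by
    rw [← Finset.card_univ]
    apply Finset.card_le_card_of_injOn (fun p => p.1) (fun _ _ => by simp)
    intro p hp q hq hpq
    simp only [P1, Finset.coe_filter, Set.mem_ofPred_eq] at hp hq
    have hpq' : p.1 = q.1 := hpq
    have h2 := hp.2
    rw [hpq'] at h2
    exact Prod.ext hpq' (consec_snd_unique S h2 hq.2)
  have h2 : P2.card ≤ Fintype.card V := by
    rw [← Finset.card_univ]
    apply Finset.card_le_card_of_injOn (fun p => p.2) (fun _ _ => by simp)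
    intro p hp q hq hpq
    simp only [P2, Finset.coe_filter, Set.mem_ofPred_eq] at hp hq
    have hpq' : p.2 = q.2 := hpq
    have h2 := hp.2
    rw [hpq'] at h2
    exact Prod.ext (consec_fst_unique S h2 hq.2) hpq'
  have h3 : P3.card ≤ Fintype.card V := by
    rw [← Finset.card_univ]
    have hex : ∀ p ∈ P3, ∃ c, (S.yt p.1 < S.yb c ∧ S.yt c < S.yb p.2) ∧
        Consec S (S.xr c) p.1 p.2 := by
      intro p hp
      simp only [P3, Finset.mem_filter] at hp
      exact hp.2
    rcases isEmpty_or_nonempty V with hV | hV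
    · have : P3 = ∅ := Finset.eq_empty_of_forall_notMem (fun p _ => hV.elim p.1)
      rw [this]; simp
    choose! f hf using hex
    apply Finset.card_le_card_of_injOn f (fun _ _ => by simp)
    intro p hp q hq hpq
    have hp' := hf p hp
    have hq' := hf q hq
    rw [hpq] at hp'
    obtain ⟨ha, hb⟩ := consec_mid_unique S hp'.2 hq'.2 hp'.1 hq'.1
    exact Prod.ext ha hb
  calc P.card ≤ (P1 ∪ (P2 ∪ P3)).card := Finset.card_le_card hcover
    _ ≤ P1.card + (P2 ∪ P3).card := Finset.card_union_le _ _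
    _ ≤ P1.card + (P2.card + P3.card) := by gcongr; exact Finset.card_union_le _ _
    _ ≤ 3 * Fintype.card V := by omega

end Bound

/-- The boxes of a family of rectangles, for vertical visibility. -/
def boxesV (R : V → Rect) (hR : PairwiseDisjointFamily R) : Boxes V where
  xl i := (R i).l
  xr i := (R i).r
  yb i := (R i).b
  yt i := (R i).t
  hx i := (R i).hlr
  hy i := (R i).hbt
  sep i j hij h1 h2 := by
    by_contra hcon
    push Not at hcon
    have hd := hR i j hij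
    rw [Set.disjoint_left] at hd
    have h3 := (R i).hlr
    have h4 := (R i).hbt
    have h5 := (R j).hlr
    have h6 := (R j).hbt
    apply hd (a := (max (R i).l (R j).l, max (R i).b (R j).b))
    · refine ⟨⟨le_max_left _ _, max_le h3.le h2⟩, ⟨le_max_left _ _, max_le h4.le hcon.1⟩⟩
    · refine ⟨⟨le_max_right _ _, max_le h1 h5.le⟩, ⟨le_max_right _ _, max_le hcon.2 h6.le⟩⟩

/-- The boxes of a family of rectangles, for horizontal visibility (coordinates swapped). -/
def boxesH (R : V → Rect) (hR : PairwiseDisjointFamily R) : Boxes V where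
  xl i := (R i).b
  xr i := (R i).t
  yb i := (R i).l
  yt i := (R i).r
  hx i := (R i).hbt
  hy i := (R i).hlr
  sep i j hij h1 h2 := by
    by_contra hcon
    push Not at hcon
    have hd := hR i j hij
    rw [Set.disjoint_left] at hd
    have h3 := (R i).hlr
    have h4 := (R i).hbt
    have h5 := (R j).hlr
    have h6 := (R j).hbt
    apply hd (a := (max (R i).l (R j).l, max (R i).b (R j).b))
    · refine ⟨⟨le_max_left _ _, max_le h3.le hcon.1⟩, ⟨le_max_left _ _, max_le h4.le h2⟩⟩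
    · refine ⟨⟨le_max_right _ _, max_le hcon.2 h5.le⟩, ⟨le_max_right _ _, max_le h1 h6.le⟩⟩

lemma vsee_of_vband (R : V → Rect) (hR : PairwiseDisjointFamily R) {i j : V} (hij : i ≠ j)
    {Q : Rect} (h1 : Icc Q.l Q.r ×ˢ {Q.b} ⊆ (R i).pts) (h2 : Icc Q.l Q.r ×ˢ {Q.t} ⊆ (R j).pts)
    (hk : ∀ k, k ≠ i → k ≠ j → Disjoint Q.pts (R k).pts) :
    VSee (boxesV R hR) i j := by
  have q1 := Q.hlr
  have q2 := Q.hbt
  have a1 : (Q.l, Q.b) ∈ (R i).pts := h1 ⟨⟨le_rfl, q1.le⟩, rfl⟩
  have a2 : (Q.r, Q.b) ∈ (R i).pts := h1 ⟨⟨q1.le, le_rfl⟩, rfl⟩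
  have b1 : (Q.l, Q.t) ∈ (R j).pts := h2 ⟨⟨le_rfl, q1.le⟩, rfl⟩
  have b2 : (Q.r, Q.t) ∈ (R j).pts := h2 ⟨⟨q1.le, le_rfl⟩, rfl⟩
  obtain ⟨⟨a11, a12⟩, ⟨a13, a14⟩⟩ := a1
  obtain ⟨⟨a21, a22⟩, ⟨a23, a24⟩⟩ := a2
  obtain ⟨⟨b11, b12⟩, ⟨b13, b14⟩⟩ := b1
  obtain ⟨⟨b21, b22⟩, ⟨b23, b24⟩⟩ := b2
  simp only at a11 a12 a13 a14 a21 a22 a23 a24 b11 b12 b13 b14 b21 b22 b23 b24
  have hsep : (R i).t < (R j).b := by
    rcases (boxesV R hR).sep i j hij (by simp only [boxesV]; linarith)
      (by simp only [boxesV]; linarith) with h | h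
    · exact h
    · simp only [boxesV] at h; linarith
  refine ⟨Q.l, ⟨a11, lt_of_lt_of_le q1 a22⟩, ⟨b11, lt_of_lt_of_le q1 b22⟩, hsep, ?_⟩
  rintro k ⟨hk1, hk2⟩ ⟨hk3, hk4⟩
  simp only [boxesV] at hk1 hk2 hk3 hk4
  have hkb := (R k).hbt
  have hki : k ≠ i := by
    rintro rfl; linarith
  have hkj : k ≠ j := by
    rintro rfl; linarith
  have hd := hk k hki hkj
  rw [Set.disjoint_left] at hd
  refine hd (a := (Q.l, (R k).b)) ⟨⟨le_rfl, q1.le⟩, ⟨?_, ?_⟩⟩ ⟨⟨hk1, hk2.le⟩, ⟨le_rfl, hkb.le⟩⟩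
  · simp only; linarith
  · simp only; linarith

lemma vsee_of_hband (R : V → Rect) (hR : PairwiseDisjointFamily R) {i j : V} (hij : i ≠ j)
    {Q : Rect} (h1 : {Q.l} ×ˢ Icc Q.b Q.t ⊆ (R i).pts) (h2 : {Q.r} ×ˢ Icc Q.b Q.t ⊆ (R j).pts)
    (hk : ∀ k, k ≠ i → k ≠ j → Disjoint Q.pts (R k).pts) :
    VSee (boxesH R hR) i j := by
  have q1 := Q.hlr
  have q2 := Q.hbt
  have a1 : (Q.l, Q.b) ∈ (R i).pts := h1 ⟨rfl, ⟨le_rfl, q2.le⟩⟩
  have a2 : (Q.l, Q.t) ∈ (R i).pts := h1 ⟨rfl, ⟨q2.le, le_rfl⟩⟩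
  have b1 : (Q.r, Q.b) ∈ (R j).pts := h2 ⟨rfl, ⟨le_rfl, q2.le⟩⟩
  have b2 : (Q.r, Q.t) ∈ (R j).pts := h2 ⟨rfl, ⟨q2.le, le_rfl⟩⟩
  obtain ⟨⟨a11, a12⟩, ⟨a13, a14⟩⟩ := a1
  obtain ⟨⟨a21, a22⟩, ⟨a23, a24⟩⟩ := a2
  obtain ⟨⟨b11, b12⟩, ⟨b13, b14⟩⟩ := b1
  obtain ⟨⟨b21, b22⟩, ⟨b23, b24⟩⟩ := b2
  simp only at a11 a12 a13 a14 a21 a22 a23 a24 b11 b12 b13 b14 b21 b22 b23 b24
  have hsep : (R i).r < (R j).l := by
    rcases (boxesH R hR).sep i j hij (by simp only [boxesH]; linarith)
      (by simp only [boxesH]; linarith) with h | h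
    · exact h
    · simp only [boxesH] at h; linarith
  refine ⟨Q.b, ⟨a13, lt_of_lt_of_le q2 a24⟩, ⟨b13, lt_of_lt_of_le q2 b24⟩, hsep, ?_⟩
  rintro k ⟨hk1, hk2⟩ ⟨hk3, hk4⟩
  simp only [boxesH] at hk1 hk2 hk3 hk4
  have hkb := (R k).hlr
  have hki : k ≠ i := by
    rintro rfl; linarith
  have hkj : k ≠ j := by
    rintro rfl; linarith
  have hd := hk k hki hkj
  rw [Set.disjoint_left] at hd
  refine hd (a := ((R k).l, Q.b)) ⟨⟨?_, ?_⟩, ⟨le_rfl, q2.le⟩⟩ ⟨⟨le_rfl, hkb.le⟩, ⟨hk1, hk2.le⟩⟩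
  · simp only; linarith
  · simp only; linarith

/-- An RVG on `n` vertices has at most `12 n` ordered adjacent pairs, that is, at most `6 n`
edges. -/
theorem card_adj_le [Fintype V] [DecidableEq V] (G : SimpleGraph V) [DecidableRel G.Adj]
    (h : IsRVG G) :
    (Finset.univ.filter (fun p : V × V => G.Adj p.1 p.2)).card ≤ 12 * Fintype.card V := by
  classical
  obtain ⟨R, hR, hG⟩ := h
  let PV : Finset (V × V) := Finset.univ.filter (fun p => VSee (boxesV R hR) p.1 p.2)
  let PH : Finset (V × V) := Finset.univ.filter (fun p => VSee (boxesH R hR) p.1 p.2)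
  have hPV : PV.card ≤ 3 * Fintype.card V :=
    card_vsee_le (boxesV R hR) PV (fun p hp => (Finset.mem_filter.mp hp).2)
  have hPH : PH.card ≤ 3 * Fintype.card V :=
    card_vsee_le (boxesH R hR) PH (fun p hp => (Finset.mem_filter.mp hp).2)
  have hsub : Finset.univ.filter (fun p : V × V => G.Adj p.1 p.2) ⊆
      (PV ∪ PH) ∪ (PV.image Prod.swap ∪ PH.image Prod.swap) := by
    intro p hp
    have hadj : G.Adj p.1 p.2 := (Finset.mem_filter.mp hp).2
    have hne : p.1 ≠ p.2 := hadj.ne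
    obtain ⟨Q, hQ, hk⟩ := (hG p.1 p.2 hne).mp hadj
    have hk' : ∀ k, k ≠ p.2 → k ≠ p.1 → Disjoint Q.pts (R k).pts := fun k h1 h2 => hk k h2 h1
    simp only [Finset.mem_union, Finset.mem_image]
    rcases hQ with ⟨h1, h2⟩ | ⟨h1, h2⟩ | ⟨h1, h2⟩ | ⟨h1, h2⟩
    · left; right
      exact Finset.mem_filter.mpr ⟨Finset.mem_univ _, vsee_of_hband R hR hne h1 h2 hk⟩
    · right; right
      exact ⟨(p.2, p.1), Finset.mem_filter.mpr ⟨Finset.mem_univ _,
        vsee_of_hband R hR hne.symm h2 h1 hk'⟩, rfl⟩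
    · left; left
      exact Finset.mem_filter.mpr ⟨Finset.mem_univ _, vsee_of_vband R hR hne h1 h2 hk⟩
    · right; left
      exact ⟨(p.2, p.1), Finset.mem_filter.mpr ⟨Finset.mem_univ _,
        vsee_of_vband R hR hne.symm h2 h1 hk'⟩, rfl⟩
  calc (Finset.univ.filter (fun p : V × V => G.Adj p.1 p.2)).card
      ≤ ((PV ∪ PH) ∪ (PV.image Prod.swap ∪ PH.image Prod.swap)).card := Finset.card_le_card hsub
    _ ≤ (PV ∪ PH).card + (PV.image Prod.swap ∪ PH.image Prod.swap).card :=
        Finset.card_union_le _ _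
    _ ≤ (PV.card + PH.card) + ((PV.image Prod.swap).card + (PH.image Prod.swap).card) :=
        Nat.add_le_add (Finset.card_union_le _ _) (Finset.card_union_le _ _)
    _ ≤ (PV.card + PH.card) + (PV.card + PH.card) :=
        Nat.add_le_add le_rfl (Nat.add_le_add Finset.card_image_le Finset.card_image_le)
    _ ≤ 12 * Fintype.card V := by omega

/-! ### Part 2: the graph -/

/-- Adjacency of the join of the path `0 - 1 - ... - 10` and the path `11 - 12 - ... - 21`. -/
def adjB (i j : Fin 22) : Bool :=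
  (decide (i.val < 11) && decide (11 ≤ j.val)) || (decide (j.val < 11) && decide (11 ≤ i.val)) ||
    decide (i.val + 1 = j.val) || decide (j.val + 1 = i.val)

/-- The join of two paths with eleven vertices each. -/
def G : SimpleGraph (Fin 22) where
  Adj i j := adjB i j = true
  symm := by
    constructor
    intro i j h
    revert h
    revert i j
    decide
  loopless := by
    constructor
    intro i
    revert i
    decide

instance : DecidableRel G.Adj := fun i j => inferInstanceAs (Decidable (adjB i j = true))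

lemma card_G : (Finset.univ.filter (fun p : Fin 22 × Fin 22 => G.Adj p.1 p.2)).card = 282 := by
  decide +kernel

theorem G_not_rvg : ¬ IsRVG G := by
  intro h
  have := card_adj_le G h
  rw [card_G] at this
  simp at this

/-! ### Part 3: the graph is an open RIG -/

/-- x-coordinates of the points: two decreasing chains of points. -/
def px (i : Fin 22) : ℕ := if i.val < 11 then i.val else 89 + i.val

/-- y-coordinates of the points. -/
def py (i : Fin 22) : ℕ := if i.val < 11 then 20 - i.val else 211 - i.val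

lemma mem_interior_uIcc (p q r : ℝ × ℝ) :
    r ∈ interior (uIcc p q) ↔
      (min p.1 q.1 < r.1 ∧ r.1 < max p.1 q.1) ∧ (min p.2 q.2 < r.2 ∧ r.2 < max p.2 q.2) := by
  have : uIcc p q = uIcc p.1 q.1 ×ˢ uIcc p.2 q.2 := by
    rw [Set.uIcc_prod_uIcc]
  rw [this, interior_prod_eq]
  simp only [uIcc, interior_Icc, Set.mem_prod, Set.mem_Ioo]

lemma rig_check : ∀ i j : Fin 22, i ≠ j → (adjB i j = true ↔ ∀ k : Fin 22,
    ¬ ((min (px i) (px j) < px k ∧ px k < max (px i) (px j)) ∧
      (min (py i) (py j) < py k ∧ py k < max (py i) (py j)))) := by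
  decide +kernel

lemma px_inj : ∀ i j : Fin 22, px i = px j → i = j := by
  decide +kernel

theorem G_openRIG : IsOpenRIG G := by
  refine ⟨fun i => ((px i : ℝ), (py i : ℝ)), ?_, ?_⟩
  · intro i j hij
    have h1 : ((px i : ℝ)) = px j := congrArg Prod.fst hij
    exact px_inj i j (by exact_mod_cast h1)
  · intro i j hij
    have := rig_check i j hij
    show adjB i j = true ↔ _
    rw [this]
    refine forall_congr' (fun k => not_congr ?_)
    rw [mem_interior_uIcc]
    simp only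
    norm_cast

/-! ### Part 4: the graph is a CRVG -/

/-- left ends -/
def xl (i : Fin 22) : ℕ := if i.val < 11 then 4 * i.val else 56 + 4 * i.val
/-- right ends -/
def xr (i : Fin 22) : ℕ := xl i + 1
/-- bottoms -/
def yb (i : Fin 22) : ℕ :=
  if i.val < 11 then (if i.val % 2 = 0 then 120 + 4 * i.val else 79 - 4 * i.val)
  else 110 - i.val
/-- tops -/
def yt (i : Fin 22) : ℕ :=
  if i.val < 11 then (if i.val % 2 = 0 then 121 + 4 * i.val else 80 - 4 * i.val)
  else 90 + i.val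

/-- eyes: lower right for even `i < 11`, upper right otherwise -/
def up (i : Fin 22) : Bool := !(decide (i.val < 11) && decide (i.val % 2 = 0))

lemma xlr (i : Fin 22) : xl i < xr i := by simp [xr]
lemma ybt : ∀ i : Fin 22, yb i < yt i := by decide +kernel

/-- The rectangles. -/
def R (i : Fin 22) : Rect where
  l := xl i
  r := xr i
  b := yb i
  t := yt i
  hlr := by exact_mod_cast xlr i
  hbt := by exact_mod_cast ybt i

/-- The eyes. -/
def e (i : Fin 22) : Bool × Bool := (true, up i)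

lemma disj_check : ∀ i j : Fin 22, i ≠ j →
    (xr i < xl j ∨ xr j < xl i ∨ yt i < yb j ∨ yt j < yb i) := by
  decide +kernel

lemma R_disj : PairwiseDisjointFamily R := by
  intro i j hij
  rw [Set.disjoint_left]
  rintro ⟨x, y⟩ ⟨⟨h1, h2⟩, ⟨h3, h4⟩⟩ ⟨⟨h5, h6⟩, ⟨h7, h8⟩⟩
  simp only [R] at h1 h2 h3 h4 h5 h6 h7 h8
  rcases disj_check i j hij with h | h | h | h
  · have : ((xr i : ℕ) : ℝ) < xl j := by exact_mod_cast h
    linarith
  · have : ((xr j : ℕ) : ℝ) < xl i := by exact_mod_cast h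
    linarith
  · have : ((yt i : ℕ) : ℝ) < yb j := by exact_mod_cast h
    linarith
  · have : ((yt j : ℕ) : ℝ) < yb i := by exact_mod_cast h
    linarith

/-- Boolean test for `R i` seeing `R j` (positive certificate). -/
def pos (i j : Fin 22) : Prop :=
  if up i = true then
    xr i < xl j ∧ max (yb j) (yt i + 1) ≤ yt j ∧
      ∀ k, k ≠ i → k ≠ j → (xr k < xr i ∨ xl j < xl k ∨ yt k < yt i ∨
        max (yb j) (yt i + 1) < yb k)
  else
    xr i < xl j ∧ yb j ≤ min (yt j) (yb i - 1) ∧ 1 ≤ yb i ∧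
      ∀ k, k ≠ i → k ≠ j → (xr k < xr i ∨ xl j < xl k ∨ yb i < yb k ∨
        yt k < min (yt j) (yb i - 1))

/-- Boolean test for `R i` not seeing `R j` (negative certificate). -/
def neg (i j : Fin 22) : Prop :=
  if up i = true then
    xr j ≤ xr i ∨ yt j ≤ yt i ∨ ∃ k, k ≠ i ∧ k ≠ j ∧ xl k ≤ max (xr i) (xl j) ∧
      xr i ≤ xr k ∧ yt i ≤ yt k ∧ yb k ≤ max (yt i) (yb j)
  else
    xr j ≤ xr i ∨ yb i ≤ yb j ∨ ∃ k, k ≠ i ∧ k ≠ j ∧ xl k ≤ max (xr i) (xl j) ∧
      xr i ≤ xr k ∧ yb k ≤ yb i ∧ min (yb i) (yt j) ≤ yt k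

instance (i j : Fin 22) : Decidable (pos i j) := by unfold pos; infer_instance
instance (i j : Fin 22) : Decidable (neg i j) := by unfold neg; infer_instance

lemma crvg_check : ∀ i j : Fin 22, i ≠ j →
    ((adjB i j = true → pos i j ∨ pos j i) ∧ (adjB i j = false → neg i j ∧ neg j i)) := by
  decide +kernel

lemma mem_frontier_pts (A : Rect) (p : ℝ × ℝ) :
    p ∈ frontier A.pts ↔ p ∈ A.pts ∧ ¬ ((A.l < p.1 ∧ p.1 < A.r) ∧ (A.b < p.2 ∧ p.2 < A.t)) := by
  have hcl : IsClosed A.pts := isClosed_Icc.prod isClosed_Icc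
  rw [hcl.frontier_eq]
  simp only [Rect.pts, interior_prod_eq, interior_Icc, Set.mem_sdiff, Set.mem_prod, Set.mem_Ioo]

lemma sees_up (i j : Fin 22) (y : ℕ) (hup : up i = true)
    (h1 : xr i < xl j) (h2 : yt i < y) (h3 : yb j ≤ y) (h4 : y ≤ yt j)
    (hk : ∀ k, k ≠ i → k ≠ j → (xr k < xr i ∨ xl j < xl k ∨ yt k < yt i ∨ y < yb k)) :
    CornerSees R e i j := by
  have r1 : (xr i : ℝ) < xl j := by exact_mod_cast h1
  have r2 : (yt i : ℝ) < y := by exact_mod_cast h2
  have r3 : (yb j : ℝ) ≤ y := by exact_mod_cast h3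
  have r4 : (y : ℝ) ≤ yt j := by exact_mod_cast h4
  have r5 : (xl j : ℝ) < xr j := (R j).hlr
  have r6 : (yb i : ℝ) < yt i := (R i).hbt
  have r7 : (xl i : ℝ) < xr i := (R i).hlr
  have r8 : (yb j : ℝ) < yt j := (R j).hbt
  have hQi : (⟨xr i, xl j, yt i, y, r1, r2⟩ : Rect).pts ∩ (R i).pts = {((xr i : ℝ), (yt i : ℝ))} := by
    ext ⟨a, b⟩
    simp only [Rect.pts, R, Set.mem_inter_iff, Set.mem_prod, Set.mem_Icc, Set.mem_singleton_iff,
      Prod.mk.injEq]
    constructor
    · rintro ⟨⟨⟨p1, p2⟩, p3, p4⟩, ⟨p5, p6⟩, p7, p8⟩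
      exact ⟨le_antisymm p6 p1, le_antisymm p8 p3⟩
    · rintro ⟨rfl, rfl⟩
      exact ⟨⟨⟨le_rfl, r1.le⟩, le_rfl, r2.le⟩, ⟨r7.le, le_rfl⟩, r6.le, le_rfl⟩
  refine ⟨⟨xr i, xl j, yt i, y, r1, r2⟩, (false, false), ?_, ?_, ?_, ?_, ?_⟩
  · simp [Rect.corner, R, e, hup]
  · rw [mem_frontier_pts]
    simp only [Rect.corner, Rect.pts, R, Set.mem_prod, Set.mem_Icc]
    refine ⟨⟨⟨le_rfl, r5.le⟩, r3, r4⟩, ?_⟩
    rintro ⟨⟨q1, -⟩, -⟩
    exact absurd q1 (lt_irrefl _)
  · rw [hQi]
    simp [Rect.corner, R, e, hup]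
  · rintro ⟨a, b⟩ ⟨⟨⟨p1, p2⟩, p3, p4⟩, hR⟩
    rw [mem_frontier_pts]
    refine ⟨hR, ?_⟩
    rintro ⟨⟨q1, -⟩, -⟩
    simp only [R] at q1 p2
    linarith
  · intro k hki hkj
    rw [Set.disjoint_left]
    rintro ⟨a, b⟩ ⟨⟨p1, p2⟩, p3, p4⟩ ⟨⟨p5, p6⟩, p7, p8⟩
    simp only [R] at p1 p2 p3 p4 p5 p6 p7 p8
    rcases hk k hki hkj with h | h | h | h
    · have : ((xr k : ℕ) : ℝ) < xr i := by exact_mod_cast h
      linarith
    · have : ((xl j : ℕ) : ℝ) < xl k := by exact_mod_cast h
      linarith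
    · have : ((yt k : ℕ) : ℝ) < yt i := by exact_mod_cast h
      linarith
    · have : ((y : ℕ) : ℝ) < yb k := by exact_mod_cast h
      linarith

lemma sees_down (i j : Fin 22) (y : ℕ) (hup : up i = false)
    (h1 : xr i < xl j) (h2 : y < yb i) (h3 : yb j ≤ y) (h4 : y ≤ yt j)
    (hk : ∀ k, k ≠ i → k ≠ j → (xr k < xr i ∨ xl j < xl k ∨ yb i < yb k ∨ yt k < y)) :
    CornerSees R e i j := by
  have r1 : (xr i : ℝ) < xl j := by exact_mod_cast h1
  have r2 : (y : ℝ) < yb i := by exact_mod_cast h2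
  have r3 : (yb j : ℝ) ≤ y := by exact_mod_cast h3
  have r4 : (y : ℝ) ≤ yt j := by exact_mod_cast h4
  have r5 : (xl j : ℝ) < xr j := (R j).hlr
  have r6 : (yb i : ℝ) < yt i := (R i).hbt
  have r7 : (xl i : ℝ) < xr i := (R i).hlr
  have r8 : (yb j : ℝ) < yt j := (R j).hbt
  have hQi : (⟨xr i, xl j, y, yb i, r1, r2⟩ : Rect).pts ∩ (R i).pts = {((xr i : ℝ), (yb i : ℝ))} := by
    ext ⟨a, b⟩
    simp only [Rect.pts, R, Set.mem_inter_iff, Set.mem_prod, Set.mem_Icc, Set.mem_singleton_iff,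
      Prod.mk.injEq]
    constructor
    · rintro ⟨⟨⟨p1, p2⟩, p3, p4⟩, ⟨p5, p6⟩, p7, p8⟩
      exact ⟨le_antisymm p6 p1, le_antisymm p4 p7⟩
    · rintro ⟨rfl, rfl⟩
      exact ⟨⟨⟨le_rfl, r1.le⟩, r2.le, le_rfl⟩, ⟨r7.le, le_rfl⟩, le_rfl, r6.le⟩
  refine ⟨⟨xr i, xl j, y, yb i, r1, r2⟩, (false, true), ?_, ?_, ?_, ?_, ?_⟩
  · simp [Rect.corner, R, e, hup]
  · rw [mem_frontier_pts]
    simp only [Rect.corner, Rect.pts, R, Set.mem_prod, Set.mem_Icc]
    refine ⟨⟨⟨le_rfl, r5.le⟩, r3, r4⟩, ?_⟩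
    rintro ⟨⟨q1, -⟩, -⟩
    exact absurd q1 (lt_irrefl _)
  · rw [hQi]
    simp [Rect.corner, R, e, hup]
  · rintro ⟨a, b⟩ ⟨⟨⟨p1, p2⟩, p3, p4⟩, hR⟩
    rw [mem_frontier_pts]
    refine ⟨hR, ?_⟩
    rintro ⟨⟨q1, -⟩, -⟩
    simp only [R] at q1 p2
    linarith
  · intro k hki hkj
    rw [Set.disjoint_left]
    rintro ⟨a, b⟩ ⟨⟨p1, p2⟩, p3, p4⟩ ⟨⟨p5, p6⟩, p7, p8⟩
    simp only [R] at p1 p2 p3 p4 p5 p6 p7 p8
    rcases hk k hki hkj with h | h | h | h
    · have : ((xr k : ℕ) : ℝ) < xr i := by exact_mod_cast h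
      linarith
    · have : ((xl j : ℕ) : ℝ) < xl k := by exact_mod_cast h
      linarith
    · have : ((yb i : ℕ) : ℝ) < yb k := by exact_mod_cast h
      linarith
    · have : ((yt k : ℕ) : ℝ) < y := by exact_mod_cast h
      linarith

lemma sees_of_pos (i j : Fin 22) (h : pos i j) : CornerSees R e i j := by
  unfold pos at h
  split_ifs at h with hup
  · obtain ⟨h1, h2, h3⟩ := h
    exact sees_up i j (max (yb j) (yt i + 1)) hup h1 (by omega) (le_max_left _ _) h2 h3
  · obtain ⟨h1, h2, h0, h3⟩ := h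
    exact sees_down i j (min (yt j) (yb i - 1)) (by simpa using hup) h1 (by omega) h2
      (min_le_left _ _) h3

/-- If the eye is at the upper right corner, then a witness rectangle extends to the upper
right. -/
lemma corner_ur {A Q : Rect} {c : Bool × Bool} (hc : Q.corner c = A.corner (true, true))
    (hQA : Q.pts ∩ A.pts = {A.corner (true, true)}) : c = (false, false) := by
  obtain ⟨c1, c2⟩ := c
  have q1 := Q.hlr
  have q2 := Q.hbt
  have a1 := A.hlr
  have a2 := A.hbt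
  simp only [Rect.corner, if_true, Prod.mk.injEq] at hc hQA
  obtain ⟨hc1, hc2⟩ := hc
  have e1 : c1 = false := by
    by_contra hne
    have hne' : c1 = true := by simpa using hne
    subst hne'
    simp only [if_true] at hc1
    have hmem : (max Q.l A.l, A.t) ∈ Q.pts ∩ A.pts := by
      refine ⟨⟨⟨le_max_left _ _, ?_⟩, ?_, ?_⟩, ⟨⟨le_max_right _ _, ?_⟩, a2.le, le_rfl⟩⟩
      · simp only; exact max_le q1.le (by linarith)
      · simp only; rw [← hc2]; cases c2 <;> simp [q2.le]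
      · simp only; rw [← hc2]; cases c2 <;> simp [q2.le]
      · simp only; exact max_le (by linarith) a1.le
    rw [hQA] at hmem
    simp only [Set.mem_singleton_iff, Prod.mk.injEq] at hmem
    have : max Q.l A.l < A.r := max_lt (by linarith) a1
    linarith [hmem.1]
  have e2 : c2 = false := by
    by_contra hne
    have hne' : c2 = true := by simpa using hne
    subst hne'
    simp only [if_true] at hc2
    have hmem : (A.r, max Q.b A.b) ∈ Q.pts ∩ A.pts := by
      refine ⟨⟨⟨?_, ?_⟩, le_max_left _ _, ?_⟩, ⟨⟨a1.le, le_rfl⟩, le_max_right _ _, ?_⟩⟩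
      · simp only; rw [← hc1]; cases c1 <;> simp [q1.le]
      · simp only; rw [← hc1]; cases c1 <;> simp [q1.le]
      · simp only; exact max_le q2.le (by linarith)
      · simp only; exact max_le (by linarith) a2.le
    rw [hQA] at hmem
    simp only [Set.mem_singleton_iff, Prod.mk.injEq] at hmem
    have : max Q.b A.b < A.t := max_lt (by linarith) a2
    linarith [hmem.2]
  rw [e1, e2]

/-- If the eye is at the lower right corner, then a witness rectangle extends to the lower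
right. -/
lemma corner_lr {A Q : Rect} {c : Bool × Bool} (hc : Q.corner c = A.corner (true, false))
    (hQA : Q.pts ∩ A.pts = {A.corner (true, false)}) : c = (false, true) := by
  obtain ⟨c1, c2⟩ := c
  have q1 := Q.hlr
  have q2 := Q.hbt
  have a1 := A.hlr
  have a2 := A.hbt
  simp only [Rect.corner, if_true, Prod.mk.injEq] at hc hQA
  obtain ⟨hc1, hc2⟩ := hc
  have hc2' : (if c2 = true then Q.t else Q.b) = A.b := by simpa using hc2
  have e1 : c1 = false := by
    by_contra hne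
    have hne' : c1 = true := by simpa using hne
    subst hne'
    simp only [if_true] at hc1
    have hmem : (max Q.l A.l, A.b) ∈ Q.pts ∩ A.pts := by
      refine ⟨⟨⟨le_max_left _ _, ?_⟩, ?_, ?_⟩, ⟨⟨le_max_right _ _, ?_⟩, le_rfl, a2.le⟩⟩
      · simp only; exact max_le q1.le (by linarith)
      · simp only; rw [← hc2']; cases c2 <;> simp [q2.le]
      · simp only; rw [← hc2']; cases c2 <;> simp [q2.le]
      · simp only; exact max_le (by linarith) a1.le
    rw [hQA] at hmem
    simp only [Set.mem_singleton_iff, Prod.mk.injEq] at hmem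
    have : max Q.l A.l < A.r := max_lt (by linarith) a1
    linarith [hmem.1]
  have e2 : c2 = true := by
    by_contra hne
    have hne' : c2 = false := by simpa using hne
    subst hne'
    have hc3 : Q.b = A.b := by simpa using hc2'
    have hmem : (A.r, min Q.t A.t) ∈ Q.pts ∩ A.pts := by
      refine ⟨⟨⟨?_, ?_⟩, ?_, min_le_left _ _⟩, ⟨⟨a1.le, le_rfl⟩, ?_, min_le_right _ _⟩⟩
      · simp only; rw [← hc1]; cases c1 <;> simp [q1.le]
      · simp only; rw [← hc1]; cases c1 <;> simp [q1.le]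
      · simp only; exact le_min q2.le (by linarith)
      · simp only; exact le_min (by linarith) a2.le
    rw [hQA] at hmem
    simp only [Set.mem_singleton_iff, Prod.mk.injEq] at hmem
    have : A.b < min Q.t A.t := lt_min (by linarith) a2
    have h3 : min Q.t A.t = A.b := by simpa using hmem.2
    linarith
  rw [e1, e2]

lemma not_sees_of_neg (i j : Fin 22) (h : neg i j) : ¬ CornerSees R e i j := by
  rintro ⟨Q, c, hc, hf, hQi, hQj, hk⟩
  have q1 := Q.hlr
  have q2 := Q.hbt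
  unfold neg at h
  split_ifs at h with hup
  · have he : e i = (true, true) := by simp [e, hup]
    rw [he] at hc hQi
    have hc' := corner_ur hc hQi
    subst hc'
    simp only [Rect.corner, R, if_true, Prod.mk.injEq] at hc
    obtain ⟨hc1, hc2⟩ := hc
    have hc1' : Q.l = (xr i : ℝ) := by simpa using hc1
    have hc2' : Q.b = (yt i : ℝ) := by simpa using hc2
    rw [mem_frontier_pts] at hf
    obtain ⟨⟨⟨f1, f2⟩, f3, f4⟩, -⟩ := hf
    simp only [Rect.corner, Bool.not_false, if_true, R] at f1 f2 f3 f4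
    rcases h with h | h | ⟨k, hki, hkj, k1, k2, k3, k4⟩
    · have : ((xr j : ℕ) : ℝ) ≤ xr i := by exact_mod_cast h
      linarith
    · have : ((yt j : ℕ) : ℝ) ≤ yt i := by exact_mod_cast h
      linarith
    · have hd := hk k hki hkj
      rw [Set.disjoint_left] at hd
      have r1 : ((xl k : ℕ) : ℝ) ≤ max (xr i : ℝ) (xl j) := by exact_mod_cast k1
      have r2 : ((xr i : ℕ) : ℝ) ≤ xr k := by exact_mod_cast k2
      have r3 : ((yt i : ℕ) : ℝ) ≤ yt k := by exact_mod_cast k3
      have r4 : ((yb k : ℕ) : ℝ) ≤ max (yt i : ℝ) (yb j) := by exact_mod_cast k4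
      have r5 : (xl k : ℝ) < xr k := (R k).hlr
      have r6 : (yb k : ℝ) < yt k := (R k).hbt
      refine hd (a := (max (xr i : ℝ) (xl k), max (yt i : ℝ) (yb k)))
        ⟨⟨?_, ?_⟩, ?_, ?_⟩ ⟨⟨le_max_right _ _, ?_⟩, le_max_right _ _, ?_⟩
      · simp only; rw [hc1']; exact le_max_left _ _
      · simp only
        refine max_le (by linarith) (r1.trans (max_le (by linarith) f1))
      · simp only; rw [hc2']; exact le_max_left _ _
      · simp only
        refine max_le (by linarith) (r4.trans (max_le (by linarith) f3))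
      · simp only [R]; exact max_le r2 r5.le
      · simp only [R]; exact max_le r3 r6.le
  · have hup' : up i = false := by simpa using hup
    have he : e i = (true, false) := by simp [e, hup']
    rw [he] at hc hQi
    have hc' := corner_lr hc hQi
    subst hc'
    simp only [Rect.corner, R, if_true, Prod.mk.injEq] at hc
    obtain ⟨hc1, hc2⟩ := hc
    have hc1' : Q.l = (xr i : ℝ) := by simpa using hc1
    have hc2' : Q.t = (yb i : ℝ) := by simpa using hc2
    rw [mem_frontier_pts] at hf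
    obtain ⟨⟨⟨f1, f2⟩, f3, f4⟩, -⟩ := hf
    simp only [Rect.corner, Bool.not_false, Bool.not_true, if_true, R] at f1 f2 f3 f4
    have f3' : (yb j : ℝ) ≤ Q.b := by simpa using f3
    have f4' : Q.b ≤ (yt j : ℝ) := by simpa using f4
    rcases h with h | h | ⟨k, hki, hkj, k1, k2, k3, k4⟩
    · have : ((xr j : ℕ) : ℝ) ≤ xr i := by exact_mod_cast h
      linarith
    · have : ((yb i : ℕ) : ℝ) ≤ yb j := by exact_mod_cast h
      linarith
    · have hd := hk k hki hkj
      rw [Set.disjoint_left] at hd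
      have r1 : ((xl k : ℕ) : ℝ) ≤ max (xr i : ℝ) (xl j) := by exact_mod_cast k1
      have r2 : ((xr i : ℕ) : ℝ) ≤ xr k := by exact_mod_cast k2
      have r3 : ((yb k : ℕ) : ℝ) ≤ yb i := by exact_mod_cast k3
      have r4 : min (yb i : ℝ) (yt j) ≤ ((yt k : ℕ) : ℝ) := by exact_mod_cast k4
      have r5 : (xl k : ℝ) < xr k := (R k).hlr
      have r6 : (yb k : ℝ) < yt k := (R k).hbt
      refine hd (a := (max (xr i : ℝ) (xl k), min (yb i : ℝ) (yt k)))
        ⟨⟨?_, ?_⟩, ?_, ?_⟩ ⟨⟨le_max_right _ _, ?_⟩, ?_, min_le_right _ _⟩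
      · simp only; rw [hc1']; exact le_max_left _ _
      · simp only
        refine max_le (by linarith) (r1.trans (max_le (by linarith) f1))
      · simp only
        refine le_min (by linarith) ((le_min (by linarith) f4').trans r4)
      · simp only; rw [hc2']; exact min_le_left _ _
      · simp only [R]; exact max_le r2 r5.le
      · simp only [R]; exact le_min r3 r6.le

theorem G_crvg : IsCRVG G := by
  refine ⟨R, e, R_disj, ?_⟩
  intro i j hij
  have hch := crvg_check i j hij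
  show adjB i j = true ↔ _
  constructor
  · intro h
    rcases hch.1 h with h1 | h1
    · exact Or.inl (sees_of_pos i j h1)
    · exact Or.inr (sees_of_pos j i h1)
  · intro h
    by_contra hne
    have hf : adjB i j = false := by simpa using hne
    obtain ⟨n1, n2⟩ := hch.2 hf
    rcases h with h | h
    · exact not_sees_of_neg i j n1 h
    · exact not_sees_of_neg j i n2 h

end Pool.Agent.Lib.MP_78e958_co
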